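import Pool.Agent.N436.DF.Stm3

/-!
# Project DF, third batch, part DH/20: the states for one real boundary edge
-/

namespace Pool.Agent.N920.DF

open Finset Pool.Agent.N436.DF

variable {V : Type} [DecidableEq V] {H : Hub V} {S X : Finset V}

omit [DecidableEq V] in
theorem sv_nonneg (hok : Ok P13 H) (f : V → Bool) (s : V → V → ℤ) (hs : ∀ x z, 0 ≤ s x z)
    (x z : V) : 0 ≤ sv H f s x z := by
  have hm := hok.m_nn x z
  have h1 := hs x z
  have h2 : 0 ≤ min (H.m x z) (s x z) := le_min hm h1
  unfold sv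
  rcases hok.r01 x z with h | h <;> rw [h] <;> split_ifs <;> linarith

omit [DecidableEq V] in
theorem sum_one_le (C : Finset V) (g : V → V → ℤ) (hg : ∀ x z, 0 ≤ g x z) {x z : V}
    (hx : x ∈ X) (hz : z ∈ C) : g x z ≤ ∑ x ∈ X, ∑ z ∈ C, g x z := by
  calc g x z ≤ ∑ z ∈ C, g x z := Finset.single_le_sum (f := fun z => g x z) (fun z _ => hg x z) hz
    _ ≤ ∑ x ∈ X, ∑ z ∈ C, g x z :=
        Finset.single_le_sum (f := fun x => ∑ z ∈ C, g x z)
          (fun x _ => Finset.sum_nonneg fun z _ => hg x z) hx

theorem sum_two_le (C : Finset V) (g : V → V → ℤ) (hg : ∀ x z, 0 ≤ g x z) {x z x' z' : V}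
    (hx : x ∈ X) (hz : z ∈ C) (hx' : x' ∈ X) (hz' : z' ∈ C) (hne : (x, z) ≠ (x', z')) :
    g x z + g x' z' ≤ ∑ x ∈ X, ∑ z ∈ C, g x z := by
  rw [← Finset.sum_product']
  have h : ({(x, z), (x', z')} : Finset (V × V)) ⊆ X ×ˢ C := by
    intro q hq
    rw [Finset.mem_insert, Finset.mem_singleton] at hq
    rcases hq with rfl | rfl
    · exact Finset.mem_product.2 ⟨hx, hz⟩
    · exact Finset.mem_product.2 ⟨hx', hz'⟩
  calc g x z + g x' z' = ∑ q ∈ ({(x, z), (x', z')} : Finset (V × V)), g q.1 q.2 := by
        rw [Finset.sum_pair hne]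
    _ ≤ _ := Finset.sum_le_sum_of_subset_of_nonneg h (fun q _ _ => hg q.1 q.2)

/-- the possibilities for `X ∪ C` -/
theorem cases_C (hb : S3_base) {v w : V} (h : M1 H S X v w) {C : Finset V} (hC : C ⊆ S \ X)
    (hCne : C.Nonempty) :
    (w ∉ C → 9 ≤ hp H (X ∪ C)) ∧ (X ∪ C ≠ S → 3 ≤ hp H (X ∪ C)) ∧ -2 ≤ hp H (X ∪ C) := by
  obtain ⟨-, -, -, -, hbS⟩ := hb V H h.top.mc.ok
  obtain ⟨h2, h3⟩ := hbS S h.top.mc
  have hsub : X ∪ C ⊆ S := Finset.union_subset h.top.sub (hC.trans Finset.sdiff_subset)
  have hne : (X ∪ C).Nonempty := ⟨v, Finset.mem_union_left _ h.hv⟩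
  refine ⟨fun hw => ?_, fun hS => (h3 _ hsub hne hS).2, h2 _ hsub hne⟩
  have hwS := Finset.mem_sdiff.1 h.hw
  refine h.top.max _ ?_ hsub ⟨v, Finset.mem_union_left _ h.hv, w, ?_, h.hr⟩
  · rw [Finset.ssubset_iff_subset_ne]
    refine ⟨Finset.subset_union_left, fun he => ?_⟩
    obtain ⟨z, hz⟩ := hCne
    have hzX : z ∈ X := by rw [he]; exact Finset.mem_union_right _ hz
    exact (Finset.mem_sdiff.1 (hC hz)).2 hzX
  · refine Finset.mem_sdiff.2 ⟨hwS.1, fun hwu => ?_⟩
    rcases Finset.mem_union.1 hwu with h1 | h1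
    · exact hwS.2 h1
    · exact hw h1

theorem sum_s {v w : V} (h : M1 H S X v w) (x : V) :
    ∑ z ∈ S \ X, (if x = v ∧ z = w then (1 : ℤ) else 0) = if x = v then 1 else 0 := by
  by_cases hx : x = v
  · simp only [hx, true_and, if_true]
    rw [Finset.sum_ite_eq' (S \ X) w (fun _ => (1 : ℤ)), if_pos h.hw]
  · simp [hx]

/-- no spare unit at `v` coloured 2 -/
theorem not_two (hb : S3_base) (hk : S3_kill) {v w : V} (h : M1 H S X v w) {f : V → Bool}
    {p : V → V → ℤ} (hcol : ColBy H X f p) (hf : f v = false)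
    (hsp : load H X f p v + 1 ≤ H.c (f v) v) : False := by
  have hok := h.top.mc.ok
  have hs0 : ∀ x z : V, (0 : ℤ) ≤ if x = v ∧ z = w then 1 else 0 := by
    intro x z; split_ifs <;> norm_num
  obtain ⟨C, hC, hCne, hle⟩ := hk V H S X f p (fun x z => if x = v ∧ z = w then 1 else 0)
    h.top.mc h.top.sub ⟨v, h.hv⟩ hcol hs0 (by
      intro x hx
      rw [sum_s h x]
      by_cases hxv : x = v
      · rw [if_pos hxv, hxv]; exact hsp
      · rw [if_neg hxv, add_zero]; exact hcol.cap x hx)
  obtain ⟨c1, c2, c3⟩ := cases_C hb h hC hCne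
  rw [h.top.h8] at hle
  have hnn := sv_nonneg hok f (fun x z => if x = v ∧ z = w then 1 else 0) hs0
  by_cases hw : w ∈ C
  · have h1 := sum_one_le C (sv H f (fun x z => if x = v ∧ z = w then 1 else 0)) hnn h.hv hw
    have h2 : 9 ≤ sv H f (fun x z => if x = v ∧ z = w then 1 else 0) v w := by
      unfold sv
      have := hok.m_nn v w
      simp only [h.hr, hf]
      have h3 : 0 ≤ min (H.m v w) 1 := le_min this (by norm_num)
      simp
      omega
    linarith
  · have h1 := c1 hw
    have h2 : 0 ≤ ∑ x ∈ X, ∑ z ∈ C, sv H f (fun x z => if x = v ∧ z = w then 1 else 0) x z :=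
      Finset.sum_nonneg fun x _ => Finset.sum_nonneg fun z _ => hnn x z
    linarith

/-- if `v` coloured 1 has a spare unit, all ends of pair units leaving `X` have the colour 2 -/
theorem all_two (hb : S3_base) (hk : S3_kill) {v w : V} (h : M1 H S X v w) {f : V → Bool}
    {p : V → V → ℤ} (hcol : ColBy H X f p) (hf : f v = true)
    (hsp : load H X f p v + 1 ≤ H.c (f v) v) {x z : V} (hx : x ∈ X) (hz : z ∈ S \ X)
    (hm : 1 ≤ H.m x z) : f x = false := by
  by_contra hfx
  have hfx : f x = true := by simpa using hfx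
  have hok := h.top.mc.ok
  have hs0 : ∀ x z : V, (0 : ℤ) ≤ if x = v ∧ z = w then 1 else 0 := by
    intro x z; split_ifs <;> norm_num
  obtain ⟨C, hC, hCne, hle⟩ := hk V H S X f p (fun x z => if x = v ∧ z = w then 1 else 0)
    h.top.mc h.top.sub ⟨v, h.hv⟩ hcol hs0 (by
      intro x hx
      rw [sum_s h x]
      by_cases hxv : x = v
      · rw [if_pos hxv, hxv]; exact hsp
      · rw [if_neg hxv, add_zero]; exact hcol.cap x hx)
  obtain ⟨c1, c2, c3⟩ := cases_C hb h hC hCne
  rw [h.top.h8] at hle
  have hnn := sv_nonneg hok f (fun x z => if x = v ∧ z = w then 1 else 0) hs0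
  have hvw : 7 + 2 * H.m v w ≤ sv H f (fun x z => if x = v ∧ z = w then 1 else 0) v w := by
    unfold sv
    have := hok.m_nn v w
    simp only [h.hr, hf]
    have h3 : 0 ≤ min (H.m v w) 1 := le_min this (by norm_num)
    simp
    omega
  have hmvw := hok.m_nn v w
  by_cases hw : w ∈ C
  · by_cases hS : X ∪ C = S
    · have hzC : z ∈ C := by
        have h1 := Finset.mem_sdiff.1 hz
        have h2 : z ∈ X ∪ C := by rw [hS]; exact h1.1
        rcases Finset.mem_union.1 h2 with h3 | h3
        · exact absurd h3 h1.2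
        · exact h3
      by_cases hxz : (v, w) = (x, z)
      · have e1 : v = x := congrArg Prod.fst hxz
        have e2 : w = z := congrArg Prod.snd hxz
        subst e1 e2
        have h1 := sum_one_le C (sv H f (fun x z => if x = v ∧ z = w then 1 else 0)) hnn h.hv hw
        linarith
      · have h1 := sum_two_le C (sv H f (fun x z => if x = v ∧ z = w then 1 else 0)) hnn h.hv hw
          hx hzC hxz
        have h2 : 2 ≤ sv H f (fun x z => if x = v ∧ z = w then 1 else 0) x z := by
          unfold sv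
          have h3 : 0 ≤ min (H.m x z) (if x = v ∧ z = w then (1 : ℤ) else 0) :=
            le_min (by linarith) (hs0 x z)
          simp only [hfx, if_true]
          rcases hok.r01 x z with h4 | h4 <;> rw [h4] <;> split_ifs at h3 ⊢ <;> linarith
        linarith
    · have h1 := c2 hS
      have h2 := sum_one_le C (sv H f (fun x z => if x = v ∧ z = w then 1 else 0)) hnn h.hv hw
      linarith
  · have h1 := c1 hw
    have h2 : 0 ≤ ∑ x ∈ X, ∑ z ∈ C, sv H f (fun x z => if x = v ∧ z = w then 1 else 0) x z :=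
      Finset.sum_nonneg fun x _ => Finset.sum_nonneg fun z _ => hnn x z
    linarith

/-- budgets -/
theorem budget {v w : V} (h : M1 H S X v w) {C : Finset V} (hC : C ⊆ X) (hCne : C.Nonempty) :
    (v ∈ C → 8 ≤ hp H C) ∧ 5 ≤ hp H C := by
  have hwS := Finset.mem_sdiff.1 h.hw
  have hvS : v ∈ S := h.top.sub h.hv
  have hCS : C ⊆ S := hC.trans h.top.sub
  have h1 : v ∈ C → 8 ≤ hp H C := fun hv => h.top.rb8 C hCS
    ⟨v, hv, w, Finset.mem_sdiff.2 ⟨hwS.1, fun h2 => hwS.2 (hC h2)⟩, h.hr⟩
  refine ⟨h1, ?_⟩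
  by_cases hv : v ∈ C
  · linarith [h1 hv]
  · by_cases hrb : RB H S C
    · linarith [h.top.rb8 C hCS hrb]
    · exact h.top.cl5 C hCS hCne hrb ⟨v, Finset.mem_sdiff.2 ⟨hvS, hv⟩, w, hwS.1, h.hr⟩

theorem X_ne {v w : V} (h : M1 H S X v w) : X ≠ S := by
  rintro rfl
  exact (Finset.mem_sdiff.1 h.hw).2 (Finset.mem_sdiff.1 h.hw).1

theorem m1st (hb : S3_base) (hs : S3_state) (hk : S3_kill) : S3_m1st := by
  intro V _ H S X v w h
  have hok := h.top.mc.ok
  have hXS := X_ne h
  refine ⟨?_, ?_, ?_⟩
  · -- first state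
    obtain ⟨f, p, hcol, hl⟩ := hs V H S X (fun _ x => if x = v then 1 else 0) h.top.mc h.top.sub
      hXS (fun _ x => by split_ifs <;> norm_num) (by
        intro C hC hCne
        obtain ⟨b1, b2⟩ := budget h hC hCne
        have hc : cost (fun (_ : Bool) x => if x = v then (1 : ℤ) else 0) C =
            if v ∈ C then 8 else 0 := by
          unfold cost
          rw [← Finset.sum_ite_eq' C v (fun _ => (8 : ℤ))]
          refine Finset.sum_congr rfl fun z _ => ?_
          by_cases hz : z = v <;> simp [hz]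
        rw [hc]
        split_ifs with hv
        · linarith [b1 hv]
        · linarith)
    obtain ⟨hv1, -⟩ := hl v h.hv
    simp only [if_true] at hv1
    have hf : f v = true := by
      by_contra hne
      have hff : f v = false := by simpa using hne
      exact not_two hb hk h hcol hff hv1
    exact ⟨f, p, hcol, hf, fun x hx z hz hm => all_two hb hk h hcol hf hv1 hx hz hm⟩
  · -- second state
    obtain ⟨f, p, hcol, hl⟩ := hs V H S X (fun i x => if i = true ∧ x = v then 2 else 0) h.top.mc
      h.top.sub hXS (fun _ x => by split_ifs <;> norm_num) (by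
        intro C hC hCne
        obtain ⟨b1, b2⟩ := budget h hC hCne
        have hc : cost (fun (i : Bool) x => if i = true ∧ x = v then (2 : ℤ) else 0) C =
            if v ∈ C then 10 else 0 := by
          unfold cost
          rw [← Finset.sum_ite_eq' C v (fun _ => (10 : ℤ))]
          refine Finset.sum_congr rfl fun z _ => ?_
          by_cases hz : z = v <;> simp [hz]
        rw [hc]
        split_ifs with hv
        · linarith [b1 hv]
        · linarith)
    obtain ⟨hv1, hv2⟩ := hl v h.hv
    refine ⟨f, p, hcol, ?_⟩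
    by_contra hne
    have hff : f v = true := by simpa using hne
    rw [hff] at hv1
    simp only [and_self, if_true] at hv1
    have h1 : H.c true v ≤ 1 := hok.c1_le v
    linarith
  · -- third state
    intro u hu husum
    obtain ⟨f, p, hcol, hl⟩ := hs V H S X
      (fun i x => if i = true then 0 else ∑ z ∈ S \ X, u x z + if x = v then 1 else 0) h.top.mc
      h.top.sub hXS (fun i x => by
        have h1 : 0 ≤ ∑ z ∈ S \ X, u x z := Finset.sum_nonneg fun z _ => (hu x z).1
        split_ifs <;> linarith) (by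
        intro C hC hCne
        obtain ⟨b1, b2⟩ := budget h hC hCne
        have hc : cost (fun (i : Bool) x => if i = true then (0 : ℤ) else
            ∑ z ∈ S \ X, u x z + if x = v then 1 else 0) C =
            3 * ∑ x ∈ C, ∑ z ∈ S \ X, u x z + if v ∈ C then 3 else 0 := by
          unfold cost
          rw [← Finset.sum_ite_eq' C v (fun _ => (3 : ℤ)), Finset.mul_sum,
            ← Finset.sum_add_distrib]
          refine Finset.sum_congr rfl fun z _ => ?_
          simp only [if_true, Bool.false_eq_true, if_false, mul_zero, zero_add]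
          split_ifs <;> ring
        have h1 : ∑ x ∈ C, ∑ z ∈ S \ X, u x z ≤ ∑ x ∈ X, ∑ z ∈ S \ X, u x z :=
          Finset.sum_le_sum_of_subset_of_nonneg hC
            (fun x _ _ => Finset.sum_nonneg fun z _ => (hu x z).1)
        rw [hc]
        split_ifs with hv
        · linarith [b1 hv]
        · linarith)
    have hf : f v = true := by
      by_contra hne
      have hff : f v = false := by simpa using hne
      obtain ⟨hv1, -⟩ := hl v h.hv
      rw [hff] at hv1
      simp only [Bool.false_eq_true, if_false, if_true] at hv1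
      have h1 : 0 ≤ ∑ z ∈ S \ X, u v z := Finset.sum_nonneg fun z _ => (hu v z).1
      refine not_two hb hk h hcol hff ?_
      rw [hff]
      linarith
    refine ⟨f, p, fun x z => if f x = false ∧ x ∈ X ∧ z ∈ S \ X then u x z else 0,
      ⟨hcol, fun x z => ?_, fun x z => ?_, fun x hx => ?_⟩, hf, fun x hx z hz => ?_⟩
    · split_ifs
      · exact (hu x z).1
      · exact le_rfl
    · split_ifs
      · exact (hu x z).2
      · exact hok.m_nn x z
    · obtain ⟨hx1, -⟩ := hl x hx
      rcases Bool.eq_false_or_eq_true (f x) with hfx | hfx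
      · -- true
        have e : ∑ z ∈ S \ X, (if f x = false ∧ x ∈ X ∧ z ∈ S \ X then u x z else 0) = 0 := by
          refine Finset.sum_eq_zero fun z _ => ?_
          rw [if_neg]
          rw [hfx]
          simp
        rw [e, add_zero]
        exact hcol.cap x hx
      · have e : ∑ z ∈ S \ X, (if f x = false ∧ x ∈ X ∧ z ∈ S \ X then u x z else 0) =
            ∑ z ∈ S \ X, u x z := by
          refine Finset.sum_congr rfl fun z hz => ?_
          rw [if_pos ⟨hfx, hx, hz⟩]
        rw [e]
        rw [hfx] at hx1 ⊢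
        simp only [Bool.false_eq_true, if_false] at hx1
        have h2 : (0 : ℤ) ≤ if x = v then 1 else 0 := by split_ifs <;> norm_num
        linarith
    · unfold av
      rcases Bool.eq_false_or_eq_true (f x) with hfx | hfx
      · rw [if_pos hfx]; exact (hu x z).2
      · rw [if_neg (by rw [hfx]; simp)]
        change u x z ≤ if f x = false ∧ x ∈ X ∧ z ∈ S \ X then u x z else 0
        rw [if_pos ⟨hfx, hx, hz⟩]

end Pool.Agent.N920.DF
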